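import Pool.Agent.Q226.ADA.Final
import Pool.Agent.Q226.ADA.NonAd
import Pool.Agent.Q226.SEN.UG

/-!
# Gap unique games are not hard under adaptive reductions of constant depth

A reduction writes down its instances bit by bit: `T` is a finite type of possible constraints (with a
left vertex `src e`, a right vertex `tgt e` and a permutation `perm e` of the alphabet `A`, all
arbitrary; repeated constraints are allowed), and a unique game is a subset of `T`. The reductions
considered here are randomised (the coins are a uniform element `ρ` of a finite type `R`) and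
adaptive: the next query `query ρ l x` and the output `output ρ l x` after `k` queries depend on the
coins, on the list `l` of the answers given so far and on the input `x` of `N` bits. All queries are
nonempty; their numbers of constraints may vary. `AdaptivelyReduces` says that for every oracle which
is right on all nonempty games of value at least `1 - ε`, and of value at most `δ` (its other answers
are arbitrary), and for every `x` the output is the parity of `x` with probability at least
`1 / 2 + γ`.

(1) Reductions of arbitrary complexity: if every present constraint can be destroyed by at most `s`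
changes of one input bit, every equality of two queries on one path changes its truth value by at
most `s` such changes, and the output by at most `s` such changes, then
`2 γ N ≤ s (2 k / (1 - ε - δ) + k (k - 1) / 2 + 1)`.

(2) Adaptive reductions of constant depth: let all bits of the queries and the output be computed by
circuits (one for each `ρ` and `l`, nonuniform) with NOT gates and AND and OR gates of unbounded
fan-in, of depth at most `h` and with at most `M` gates. If `N` is large, more precisely
`γ (1 - ε - δ) N ≥ X₀ k ^ (h + 4)` for a number `X₀` which depends on `h` only, then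
`M + k ≥ γ 2 ^ ((γ (1 - ε - δ) N / k ^ 2) ^ (1 / (h + 2)) / 100)`.

(3) Nonadaptive reductions of constant depth, with an arbitrary evaluation of the answers:
`k M ≥ γ 2 ^ (X ^ (1 / (h + 1)) / 100)` for `X = γ (1 - ε - δ) N / k`, if `X ≥ X₀`.

So, whatever the numbers `ε, δ` with `ε + δ < 1` and the alphabet are, the problem of the Unique Games
Conjecture is not hard for `NP`, and not even for parity, under adaptive randomised reductions in
`AC^0` (Turing reductions) with `N ^ o(1)` queries.

Proof of (2). The queries are answered by a random oracle: independently for each game `g`, the answer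
is `1` with probability `f g`, the value of `g`, rescaled and truncated such that it is `1` and `0` on
the two sides of the promise. This oracle is always right, and `f` is Lipschitz. The law of the list
of the answers can be computed, if one takes into account that equal queries have equal answers. For
two inputs which differ in one bit the difference of the probabilities of the output `1` is at most the
sum of the differences of the conditional probabilities, each weighted with the smaller of the two
probabilities of the history. Hence the differences can be summed over all inputs and all bits, and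
each destroyed constraint is charged to the history in which it is queried. Under a random
restriction which leaves many variables free all bits of all queries (for all `2 ^ k` lists of
answers) and all equality tests become decision trees of small depth, so that they have few sensitive
free variables.
-/

set_option autoImplicit false

namespace Pool.Agent.Results.MP_325f1f_lc.AdaptiveReductions

open Finset DomAC0 Pool.Agent.Q226.SEN Pool.Agent.Q226.ADA
open scoped Classical

/-- See above. The definitions of `run`, `Right`, `AdaptivelyReduces`, `NonadaptivelyReduces` are in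
`Pool/Agent/Q226/ADA/Defs.lean`, those of `size`, `sat`, `toggle`, `par` in
`Pool/Agent/Q226/SEN/Defs.lean`, of `UGSat` in `Pool/Agent/Q226/SEN/UG.lean`, and of circuits in
`Pool/Agent/H568R2/Defs.lean`. -/
theorem result :
    -- (1) arbitrary complexity, few sensitive bits
    (∀ (N k s : ℕ) (T U V A R : Type) [Fintype T] [Fintype R] [Nonempty R] (src : T → U)
      (tgt : T → V) (perm : T → Equiv.Perm A) (ε δ γ : ℝ)
      (query : R → List Bool → (Fin N → Bool) → T → Bool)
      (output : R → List Bool → (Fin N → Bool) → Bool),
      0 ≤ δ → ε + δ < 1 → (∀ ρ l x, l.length < k → 1 ≤ size (query ρ l x)) →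
      AdaptivelyReduces (UGSat src tgt perm) (1 - ε) δ k query output γ →
      (∀ ρ l x e, l.length < k → query ρ l x e = true →
        (univ.filter fun i => query ρ l (toggle i x) e = false).card ≤ s) →
      (∀ ρ l l' x, l.length < k → l' <:+ l → l' ≠ l →
        (univ.filter fun i => ¬ (query ρ l' x = query ρ l x ↔
          query ρ l' (toggle i x) = query ρ l (toggle i x))).card ≤ s) →
      (∀ ρ l x, l.length = k →
        (univ.filter fun i => output ρ l x ≠ output ρ l (toggle i x)).card ≤ s) →
      2 * γ * N ≤ s * (2 * (1 / (1 - ε - δ)) * k + k * (k - 1) / 2 + 1)) ∧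
    -- (2) adaptive reductions of small depth
    (∀ h : ℕ, ∃ X₀ : ℝ, ∀ (N k M : ℕ) (T U V A R : Type) [Fintype T] [Fintype R] [Nonempty R]
      (src : T → U) (tgt : T → V) (perm : T → Equiv.Perm A) (ε δ γ : ℝ)
      (C : R → List Bool → Circuit (Fin N)) (out : ∀ ρ l, T → Fin N ⊕ Fin (C ρ l).size)
      (fin : ∀ ρ l, Fin N ⊕ Fin (C ρ l).size),
      0 ≤ ε → 0 ≤ δ → ε + δ < 1 → 0 < γ → 1 ≤ k →
      (∀ ρ l, l.length ≤ k → (C ρ l).size ≤ M) →
      (∀ ρ l e, l.length < k → (C ρ l).nodeDepth (out ρ l e) ≤ h) →
      (∀ ρ l, l.length = k → (C ρ l).nodeDepth (fin ρ l) ≤ h) →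
      (∀ ρ l x, l.length < k → 1 ≤ size (fun e => (C ρ l).nodeVal x (out ρ l e))) →
      AdaptivelyReduces (UGSat src tgt perm) (1 - ε) δ k
        (fun ρ l x e => (C ρ l).nodeVal x (out ρ l e))
        (fun ρ l x => (C ρ l).nodeVal x (fin ρ l)) γ →
      X₀ * (k : ℝ) ^ (h + 4) ≤ γ * (1 - ε - δ) * N →
      γ * (2 : ℝ) ^ ((γ * (1 - ε - δ) * N / (k : ℝ) ^ 2) ^ (1 / (h + 2 : ℝ)) / 100) ≤ M + k) ∧
    -- (3) nonadaptive reductions of small depth
    ∀ h : ℕ, ∃ X₀ : ℝ, ∀ (N k M : ℕ) (T U V A R : Type) [Fintype T] [Fintype R] [Nonempty R]
      (src : T → U) (tgt : T → V) (perm : T → Equiv.Perm A) (ε δ γ : ℝ)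
      (C : R → Circuit (Fin N)) (out : ∀ ρ, Fin k → T → Fin N ⊕ Fin (C ρ).size)
      (eval : R → (Fin k → Bool) → Bool),
      0 ≤ δ → ε + δ < 1 → 0 < γ → 1 ≤ k → (∀ ρ, (C ρ).size ≤ M) →
      (∀ ρ j e, (C ρ).nodeDepth (out ρ j e) ≤ h) →
      (∀ ρ j x, 1 ≤ size (fun e => (C ρ).nodeVal x (out ρ j e))) →
      NonadaptivelyReduces (UGSat src tgt perm) (1 - ε) δ
        (fun ρ j x e => (C ρ).nodeVal x (out ρ j e)) eval γ →
      X₀ ≤ γ * (1 - ε - δ) * N / k →
      γ * (2 : ℝ) ^ ((γ * (1 - ε - δ) * N / k) ^ (1 / (h + 1 : ℝ)) / 100) ≤ k * M := by
  refine ⟨?_, fun h => ?_, fun h => ?_⟩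
  · intro N k s T U V A R _ _ _ src tgt perm ε δ γ query output hδ hεδ hne hred h1 h2 h3
    exact few (UGSat src tgt perm) hδ (by linarith) query output hne hred s h1 h2 h3
  · obtain ⟨X₀, hX⟩ := final h
    refine ⟨X₀, ?_⟩
    intro N k M T U V A R _ _ _ src tgt perm ε δ γ C out fin h1 h2 h3 h4 h5 h6 h7 h8 h9 h10 h11
    exact hX (UGSat src tgt perm) (1 - ε) δ γ C out fin h2 (by linarith) (by linarith) h4 h5 h6 h7
      h8 h9 h10 h11
  · obtain ⟨X₀, hX⟩ := mainN h
    refine ⟨X₀, ?_⟩
    intro N k M T U V A R _ _ _ src tgt perm ε δ γ C out eval h1 h2 h3 h4 h5 h6 h7 h8 h9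
    exact hX (UGSat src tgt perm) (1 - ε) δ γ C out eval h1 (by linarith) h3 h4 h5 h6 h7 h8 h9

end Pool.Agent.Results.MP_325f1f_lc.AdaptiveReductions
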