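import Pool.Agent.Q226.UGL.Lower
import Pool.Agent.TH912.LG.Upper

set_option autoImplicit false

/-!
# Local search on unique games with value 1

Local search with auxiliary states and an arbitrary local potential (`Pool.Agent.TH912.LG.Defs`).
Every vertex carries a state from a finite set `S` from which a label is read off; the potential is
the sum over all vertices of a real cost that is an arbitrary function of the radius-`r` view; an
improving move changes the states inside at most `m` balls of radius `t` and lowers the potential.

* Lower bound. Let `q ≥ 1` and `δ > 1 / q`. There are a degree bound `Δ` and `c > 0` such that, on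
  arbitrarily large unique games with value `1`, alphabet `ZMod q` and degrees at most `Δ`, the
  following holds for all such local searches with `m (t + r + 1) ≤ c log n`: from every start that
  is invariant under the automorphisms of the game (for example all states equal), a run of improving
  moves ends in a local optimum whose labelling satisfies at most a fraction `δ` of the constraints.
  Every game has labellings which satisfy a fraction `1 / q`; so, for every alphabet, local search
  gives nothing, although a labelling which satisfies everything exists (and is found in linear time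
  by propagation).
* Upper bound. With the labels as states, the number of violated constraints as potential and moves
  inside one ball of radius `t ≥ (12/ε) log (number of constraints) + 1`, every local optimum of every
  unique game with value `1` satisfies at least a `1 - ε` fraction of the constraints.

Proof of the lower bound. Take a base graph of bounded degree and large girth with many edges, and
random shifts in `ZMod q` on its edges: every labelling of this game satisfies at most a fraction `δ`
of the constraints (`Pool.Agent.Q226.UGL.Count`). The `q`-fold cyclic cover defined by the same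
shifts has value `1`, and the group `ZMod q` acts on it by automorphisms. As a closed walk of the
base which does not lift to a closed walk contains a cycle, translates of a small ball are far from
each other. So a local improvement can be repeated in all translates, and the run stays invariant
(`Pool.Agent.TH912.LG.Sym`, from the starting result on 2-to-1 games); an invariant labelling is a
labelling of the base game.
-/

namespace Pool.Agent.Results.MP_325f1f_lc.LocalSearchTrivial

open Pool.Agent.TH912.LG Pool.Agent.Q226.UGL

theorem result :
    -- value at most `δ` up to radius `c log n`, for every `δ > 1 / q`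
    (∀ (q : ℕ) (δ : ℝ), 1 ≤ q → 1 / (q : ℝ) < δ → ∃ (Δ : ℕ) (c : ℝ), 0 < c ∧
      ∀ N : ℕ, ∃ (V : Type) (_ : Fintype V) (X : Game (ZMod q) V),
        N ≤ Fintype.card V ∧ Unique X ∧ Satisfiable X ∧ 0 < numCon X ∧
        (∀ v, (X.gr.neighborSet v).ncard ≤ Δ) ∧
        ∀ (S : Type) [Finite S] (lab : Bool → S → ZMod q) (r m t : ℕ)
          (F : LocalCost (ZMod q) S r) (start : V → S),
          (m * (t + r + 1) : ℝ) ≤ c * Real.log (Fintype.card V) →
          (∀ φ : V ≃ V, IsAut X φ → ∀ v, start (φ v) = start v) →
          ∃ σ : V → S, Relation.ReflTransGen (Step F m t X) start σ ∧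
            (∀ σ', ¬ Step F m t X σ σ') ∧
            (numSat X (fun v => lab (X.side v) (σ v)) : ℝ) ≤ δ * numCon X) ∧
    -- value at least `1 - ε` from radius `(12/ε) log (number of constraints) + 1` on
    ∀ Q : Type, ∃ F : LocalCost Q Q 1,
      (∀ (V : Type) [Fintype V] (X : Game Q V) (σ : V → Q),
        F.total X σ = (numCon X : ℝ) - numSat X σ) ∧
      ∀ (V : Type) [Fintype V] (X : Game Q V) (σ : V → Q) (ε : ℝ) (t : ℕ), Unique X →
        0 < ε → ε ≤ 1 → Satisfiable X → 12 / ε * Real.log (numCon X) + 1 ≤ t →
        (∀ σ', ¬ Step F 1 t X σ σ') → (1 - ε) * numCon X ≤ numSat X σ := by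
  refine ⟨fun q δ hq hδ => lower q hq δ hδ, ?_⟩
  intro Q
  refine ⟨violCost Q, ?_, ?_⟩
  · intro V _ X σ
    rw [violCost_total, ← numSat_eq X σ]
    push_cast
    ring
  · intro V _ X σ ε t _ hε hε1 hX ht hσ
    have hsum : (numSat X σ : ℝ) + (VS X σ).card = numCon X := by exact_mod_cast numSat_eq X σ
    rcases Nat.eq_zero_or_pos (numCon X) with h0 | hpos
    · have h1 : (numSat X σ : ℝ) + (VS X σ).card = 0 := by rw [hsum, h0]; simp
      rw [h0]
      simp
    have hcard : (1 : ℝ) ≤ numCon X := by exact_mod_cast hpos
    set δ : ℝ := ε / 3 with hδ
    have hδ0 : 0 < δ := by positivity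
    have hlog : δ / 2 ≤ Real.log (1 + δ) := by
      have h1 := Real.one_sub_inv_le_log_of_pos (show (0 : ℝ) < 1 + δ by linarith)
      refine le_trans ?_ h1
      have h2 : 1 - (1 + δ)⁻¹ = δ / (1 + δ) := by field_simp; ring
      rw [h2]
      exact div_le_div_of_nonneg_left hδ0.le (by linarith) (by linarith)
    have hlogpos : 0 < Real.log (1 + δ) := by linarith
    have hl0 : 0 ≤ Real.log (numCon X) := Real.log_nonneg hcard
    set N : ℕ := ⌊Real.log (numCon X) / Real.log (1 + δ)⌋₊ + 1 with hN
    have hN1 : Real.log (numCon X) / Real.log (1 + δ) ≤ N := by
      rw [hN]; push_cast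
      exact (Nat.lt_floor_add_one _).le
    have hN2 : (N : ℝ) ≤ Real.log (numCon X) / Real.log (1 + δ) + 1 := by
      rw [hN]; push_cast
      have := Nat.floor_le (div_nonneg hl0 hlogpos.le)
      linarith
    have hpow : (numCon X : ℝ) ≤ (1 + δ) ^ N := by
      rw [div_le_iff₀ hlogpos] at hN1
      rw [← Real.log_le_log_iff (by linarith) (by positivity), Real.log_pow]
      exact hN1
    have h3 : Real.log (numCon X) / Real.log (1 + δ) ≤ Real.log (numCon X) / (δ / 2) :=
      div_le_div_of_nonneg_left hl0 (by linarith) hlog
    have h4 : Real.log (numCon X) / (δ / 2) = 6 / ε * Real.log (numCon X) := by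
      rw [hδ]
      field_simp
      ring
    have h5 : 6 / ε * Real.log (numCon X) ≤ 12 / ε * Real.log (numCon X) := by
      have : 6 / ε ≤ 12 / ε := by gcongr; norm_num
      exact mul_le_mul_of_nonneg_right this hl0
    have h6 : (N : ℝ) ≤ t := by
      rw [h4] at h3
      linarith
    have h7 := upper X hX σ δ hδ0 N t (by rw [← numCon_eq]; exact hpow) (by omega)
      (by exact_mod_cast h6) hσ
    have h8 : 3 * δ * numCon X = ε * numCon X := by rw [hδ]; ring
    rw [h8] at h7
    linarith

end Pool.Agent.Results.MP_325f1f_lc.LocalSearchTrivial
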