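import Pool.Agent.Q226.SEN.UG

/-!
# Gap unique games under reductions of arbitrary complexity with unate bits or small formulas

A reduction writes down its instances bit by bit: `T` is a finite type of possible constraints (with a
left vertex `src e`, a right vertex `tgt e` and a permutation `perm e` of the alphabet `A`, all
arbitrary; repeated constraints are allowed), and a unique game is a subset of `T`. The reductions
considered here are randomised (the coins are a uniform element `ρ` of a finite type `R`), they ask
`k` queries nonadaptively, and evaluate the answers by an arbitrary function; many-one reductions are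
the case `k = 1`. All queries have `m` constraints. `Reduces` says that for every oracle which is
right on the games with `m` constraints of value at least `1 - ε`, and of value at most `δ` (its other
answers are arbitrary), and for every input `x` of `N` bits the output is the parity of `x` with
probability at least `1 / 2 + γ`. Let `κ = 1 - ε - δ > 0`; nothing is assumed about the complexity of
the reduction, and the types and numbers are arbitrary.

(1) `law`: The constraints are sensitive: the number of the tuples of coins, a query, an input, a
constraint that is present in the query, and a bit of the input whose change makes the constraint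
disappear, is at least `2 γ κ N` times the number of the tuples of coins and a present constraint of
one query and an input. So, if there is one query (and `γ = 1 / 2`), flipping one bit makes at least a
fraction `κ` of the constraints disappear on the average.

(2) `few`: If every present constraint can be destroyed in at most `s` bits (for example if every bit
of the queries is computed by a decision tree of depth `s`, or by a DNF of width `s` of any size) then
`k s ≥ 2 γ κ N`.

(3) `unate`: If every bit of the queries is a unate function of the input (for each input bit it is
nondecreasing or nonincreasing in it; for example a monotone function or a linear threshold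
function, of arbitrary complexity) then `|T| ≥ m exp (2 γ ^ 2 κ ^ 2 N / k ^ 2)`. So a polynomial
number of possible constraints is impossible for `k ≤ N ^ (1 / 2 - c)` queries.

(4) `formulas`: If the bits are computed by formulas with AND and OR gates on literals then these
formulas have at least `4 γ ^ 2 κ ^ 2 N ^ 2 m / k` leaves together (on the average over the coins);
for many-one reductions this is `κ ^ 2 N ^ 2` times the number of constraints.

(5) Up to constant factors (3) and (4) are optimal for many-one reductions: for every alphabet size
`p` there are reductions to games of value `1` or `1 / p` (`m = p`) with `2 N ^ 2 m` leaves (`N` a power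
of two), and with unate bits and `|T| = 2 ^ N m`.

(6) All this is due to the gap: for every `N = n + 1` there is a many-one reduction from parity to
unique games with `2 N` constraints, `3 N` possible constraints and alphabet `ZMod 2`, of value `1` or
less than `1`, in which every bit is a literal or a constant (if an input bit is flipped, one
constraint is replaced by another one).

So the problem of the Unique Games Conjecture is not `NP`-hard (not even hard for parity) under
polynomial size reductions of unbounded complexity with unate bits, or with few queries or sensitive
bits, whereas the natural `NP`-complete problems are `NP`-complete under projections (every bit is a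
literal or a constant), which have all these properties.

Proof. Answer the queries by the oracle for value at least `θ`, for a random threshold `θ` between `δ`
and `1 - ε`. If one bit of the input is flipped, some answer must change for all `θ`, and so the sum
of the changes of the values of the queries is at least `κ`. Then the sensitivity is counted. For (3)
the number of sensitive bits of a unate function, summed over its ones, is a sum of signs, which
is estimated by exponential moments and Gibbs' inequality simultaneously for all constraints (they may
be rare events). (4) is Khrapchenko's inequality summed over all constraints.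
-/

set_option autoImplicit false

namespace Pool.Agent.Results.MP_325f1f_lc.SensitiveReductions

open Finset Pool.Agent.Q226.SEN
open scoped Classical

/-- Parts (1) to (4): lower bounds for every reduction `query`, `eval` from the parity of `N` bits to
unique games with `m ≥ 1` constraints of value at least `1 - ε`, or at most `δ`, with `k` queries,
coins `R` and advantage `γ ≥ 0`. Parts (5) and (6): reductions. The definitions (`Reduces`, `UGSat`,
`sens`, `size`, `Unate`, `Fml`) are in `Pool/Agent/Q226/SEN/Defs.lean` and
`Pool/Agent/Q226/SEN/UG.lean`. -/
theorem result :
    (∀ (N k m : ℕ) (T U V A R : Type) [Fintype T] [Fintype R] [Nonempty R] (src : T → U)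
      (tgt : T → V) (perm : T → Equiv.Perm A) (ε δ γ : ℝ)
      (query : R → Fin k → (Fin N → Bool) → T → Bool) (eval : R → (Fin k → Bool) → Bool),
      1 ≤ m → 0 ≤ δ → ε + δ ≤ 1 → 0 ≤ γ → (∀ ρ j x, size (query ρ j x) = m) →
      Reduces (UGSat src tgt perm) (1 - ε) δ m query eval γ →
      -- (1)
      2 * γ * (1 - ε - δ) * N * (m * 2 ^ N * Fintype.card R) ≤
        ∑ ρ, ∑ j, ∑ e, (sens (fun x => query ρ j x e) : ℝ) ∧
      -- (2)
      (∀ s : ℕ, (∀ ρ j x e, query ρ j x e = true →
        (univ.filter fun i => query ρ j (toggle i x) e = false).card ≤ s) →
        2 * γ * (1 - ε - δ) * N ≤ k * s) ∧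
      -- (3)
      ((∀ ρ j e, Unate fun x => query ρ j x e) →
        2 * (γ * (1 - ε - δ)) ^ 2 * N ≤ k ^ 2 * Real.log (Fintype.card T / m)) ∧
      -- (4)
      (∀ F : R → Fin k → T → Fml N, (∀ ρ j x e, (F ρ j e).val x = query ρ j x e) →
        4 * (γ * (1 - ε - δ)) ^ 2 * N ^ 2 * m * Fintype.card R ≤
          k * ∑ ρ, ∑ j, ∑ e, ((F ρ j e).leaves : ℝ))) ∧
    -- (5)
    (∀ q p : ℕ, 1 ≤ p →
      ∃ (T A : Type) (_ : Fintype T) (src tgt : T → Unit) (perm : T → Equiv.Perm A)
        (g : (Fin (2 ^ q) → Bool) → T → Bool) (F : T → Fml (2 ^ q)),
        Nat.card A = p ∧ (∀ x, size (g x) = p) ∧ (∀ e x, (F e).val x = g x e) ∧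
        Reduces (k := 1) (UGSat src tgt perm) 1 (1 / p) p (fun (_ : Unit) _ => g)
          (fun _ u => !u 0) (1 / 2) ∧
        ∑ e, (F e).leaves = 2 * p * (2 ^ q) ^ 2) ∧
    (∀ N p : ℕ, 1 ≤ p →
      ∃ (T A : Type) (_ : Fintype T) (src tgt : T → Unit) (perm : T → Equiv.Perm A)
        (g : (Fin N → Bool) → T → Bool),
        Nat.card A = p ∧ Fintype.card T = 2 ^ N * p ∧ (∀ x, size (g x) = p) ∧
        (∀ e, Unate fun x => g x e) ∧
        Reduces (k := 1) (UGSat src tgt perm) 1 (1 / p) p (fun (_ : Unit) _ => g)
          (fun _ u => !u 0) (1 / 2)) ∧
    -- (6)
    ∀ n : ℕ, ∃ (T : Type) (_ : Fintype T) (src tgt : T → Fin (n + 1))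
      (perm : T → Equiv.Perm (ZMod 2)) (g : (Fin (n + 1) → Bool) → T → Bool)
      (F : T → Fml (n + 1)),
      Fintype.card T = 3 * (n + 1) ∧ (∀ x, size (g x) = 2 * (n + 1)) ∧
      (∀ e x, (F e).val x = g x e) ∧ (∀ e, (F e).leaves ≤ 1) ∧
      Reduces (k := 1) (UGSat src tgt perm) 1 (1 - 1 / (2 * (n + 1))) (2 * (n + 1))
        (fun (_ : Unit) _ => g) (fun _ u => !u 0) (1 / 2) := by
  refine ⟨?_, fml_upper, unate_upper, no_gap⟩
  intro N k m T U V A R _ _ _ src tgt perm ε δ γ query eval hm hδ hεδ hγ hsize hred
  have hab : δ ≤ 1 - ε := by linarith
  refine ⟨?_, ?_, ?_, ?_⟩
  · have h1 := law _ hδ hab m query eval γ hsize hred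
    refine le_trans (le_of_eq ?_) h1
    ring
  · intro s hs
    exact few_main _ hδ hab hm query eval γ hsize hred s hs
  · intro hu
    exact unate_main _ hδ hab hm query eval γ hγ hsize hred hu
  · intro F hF
    exact fml_main _ hδ hab hm query eval γ hγ hsize hred F hF

end Pool.Agent.Results.MP_325f1f_lc.SensitiveReductions
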