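import Pool.Agent.Q226.UGF.Low
import Pool.Agent.Q226.UGF.Up

/-!
# Gap unique games and circuits with unreliable negations

A unique game with `N + N` vertices and alphabet `Fin q` is given by bits: for every constraint `c`
(left vertex, right vertex, permutation of the alphabet) and every tag `j < K`, the bit of the
position `(c, j)` tells whether the game has the constraint `c` with the tag `j`. Only games in which
no constraint is repeated are considered; the tag has no meaning.

The model: randomised circuits whose inputs are these bits and their negations, with gates that
compute arbitrary nondecreasing real functions of two arguments, without a bound on the depth. Every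
circuit with AND, OR and NOT gates can be brought into this form by doubling its size. Faults: each
negated input is stuck at `0`, independently with probability `1 / D`; the other inputs are reliable.

Results. (A) For every `q ≥ 2`, every soundness `δ > 1 / q` and every loss of completeness
`ε ≥ N ^ (-1 / 139)`: circuits that accept the games of value at most `δ` under faults and reject,
without faults, the games of value at least `1 - ε` need size `2 ^ (N ^ (1 / 139))`, however small
the constant fault probability `1 / D` is; `K = O(D log N)` tags are enough. Without faults (`D = ∞`)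
this would be an unconditional form of the Unique Games Conjecture for circuits. (B) For `ε = 0`
circuits of polynomial size without any negation, to which faults do no harm, decide exactly whether
the value is one.

The definitions are in `Pool/Agent/Q226/UGF/Defs.lean`. The proof uses the lower bound for circuits
without negations (`D = 1`) of the starting result `MonotoneCircuits`, and hides the negative
information in the faults: the constraints of a game get random tags; the tagged game shows only the
tags of its constraints, and the positions that the absent constraints would get are as good as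
random faulty ones.
-/

set_option autoImplicit false

namespace Pool.Agent.Results.MP_325f1f_lc.UnreliableNegations

open Pool.Agent.W906.MU Pool.Agent.Q226.UGF

/-- Let `q ≥ 2` and `1 / q < δ`.
(A) For all large `N` there is `m > 0` such that for all `ε ≥ N ^ (-1/139)`, `η > 0`, `D ≥ 1` and
`K ≥ 1` with `K ≥ D log (2 N ^ 2 q! / η)`: (1) every randomised circuit `l` (finite family) on
literals which accepts the games with exactly `m` constraints and value at most `δ` with probability
at least `2 / 3 + η` if each negated literal is stuck at `0` with probability `1 / D`, and which
accepts the games with at least `m` constraints of which some labelling violates at most `ε m` with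
probability at most `1 / 3` without faults, has a member with at least `2 ^ (N ^ (1/139))` gates;
(2) if `ε + δ < 1`, some circuit without negations accepts all the former and none of the latter
games, whatever the faults are.
(B) One circuit without negations with at most `C K (N + 1) ^ 4` gates computes, for all games and
all faults, whether the value of the game is one (output `0`) or not (output `1`); `C` does not
depend on `N` and `K`. -/
theorem result (q : ℕ) (hq : 2 ≤ q) (δ : ℝ) (hδ : 1 / (q : ℝ) < δ) :
    (∃ N0 : ℕ, ∀ N : ℕ, N0 ≤ N → ∃ m : ℕ, 0 < m ∧
      ∀ (ε η : ℝ) (D K : ℕ), (N : ℝ) ^ (-(1 / 139) : ℝ) ≤ ε → 0 < η → 1 ≤ D → 1 ≤ K →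
        D * Real.log (2 * (N ^ 2 * q.factorial) / η) ≤ K →
        (∀ (Ω : Type) [Finite Ω] [Nonempty Ω] (l : Ω → List ((Pos N q K × Bool → Bool) → ℝ))
          (out : Ω → (Pos N q K × Bool → Bool) → ℝ) (τ : Ω → ℝ),
          (∀ ω, Prog (litInputs (Pos N q K)) (l ω)) → (∀ ω, out ω ∈ l ω) →
          (∀ x, No m δ x → 2 / 3 + η ≤ faultyAcceptance out τ D x) →
          (∀ x, Yes m ε x → acceptance out τ x ≤ 1 / 3) →
          ∃ ω, (2 : ℝ) ^ ((N : ℝ) ^ (1 / 139 : ℝ)) ≤ (l ω).length) ∧
        (ε + δ < 1 → ∃ l : List ((Pos N q K × Bool → Bool) → ℝ),
          Prog (posInputs (Pos N q K)) l ∧ ∃ out ∈ l, ∀ x Z,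
            (No m δ x → out (literals x Z) = 1) ∧ (Yes m ε x → out (literals x Z) = 0))) ∧
    ∃ C : ℕ, ∀ N K : ℕ, 1 ≤ K → ∃ l : List ((Pos N q K × Bool → Bool) → ℝ),
      Prog (posInputs (Pos N q K)) l ∧ l.length ≤ C * K * (N + 1) ^ 4 ∧ ∃ out ∈ l, ∀ x Z,
        ((∃ f g, violated f g x = 0) → out (literals x Z) = 0) ∧
        ((∀ f g, violated f g x ≠ 0) → out (literals x Z) = 1) := by
  refine ⟨?_, up q⟩
  obtain ⟨N0, H⟩ := low q (by omega) δ hδ
  refine ⟨N0, fun N hN => ?_⟩
  obtain ⟨m, hm, h⟩ := H N hN
  refine ⟨m, hm, fun ε η D K h1 h2 h3 h4 h5 => ⟨?_, fun h6 => exists_sep N q K m δ ε hm h6⟩⟩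
  intro Ω _ _ l out τ
  exact h ε η D K h1 h2 h3 h4 h5 Ω l out τ

end Pool.Agent.Results.MP_325f1f_lc.UnreliableNegations
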